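import Mathlib
import Pool.Agent.N299.DT.Stm

/-!
Project DT, part F2: commuting copies in the central sequence algebra, by reindexing.
-/

set_option autoImplicit false

open scoped BoundedContinuousFunction Topology
open Filter

noncomputable section

namespace Pool.Agent.N281.DT

open Pool.Agent.N299 Pool.Agent.N299.DT

variable {A : Type} [CStarAlgebra A]

/-- the left side of `Com` -/
def cx {n : ℕ} {E : Type} [CStarAlgebra E] (V : Fin 4 × Fin n → E) : E :=
  ∑ i, V (2, i) * (V (0, i) * V (1, i) - V (1, i) * V (0, i)) * V (3, i)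

/-- the approximate relations at the index `k` -/
def Pr {n : ℕ} (v : Fin 4 × Fin n → (ℕ →ᵇ A)) (F : Finset A) (ε : ℝ) (k : ℕ) : Prop :=
  (∀ a ∈ F, ∀ g, ‖v g k * a - a * v g k‖ < ε ∧ ‖star (v g k) * a - a * star (v g k)‖ < ε) ∧
    ‖cx (fun g => v g k) - 1‖ < ε

open Classical in
/-- the increasing finite sets -/
def SS {n : ℕ} (v : Fin 4 × Fin n → (ℕ →ᵇ A)) (kk : Finset A → ℕ) (B : Finset A) : ℕ → Finset A
  | 0 => B
  | j + 1 => SS v kk B j ∪ (Finset.univ.image fun g => v g (kk (SS v kk B j))) ∪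
      (Finset.univ.image fun g => star (v g (kk (SS v kk B j))))

theorem SS_mono {n : ℕ} (v : Fin 4 × Fin n → (ℕ →ᵇ A)) (kk : Finset A → ℕ) (B : Finset A) :
    Monotone (SS v kk B) := by
  refine monotone_nat_of_le_succ fun j a ha => ?_
  simp only [SS, Finset.mem_union]
  exact Or.inl (Or.inl ha)

theorem mem_SS {n : ℕ} (v : Fin 4 × Fin n → (ℕ →ᵇ A)) (kk : Finset A → ℕ) (B : Finset A)
    {i j : ℕ} (h : i < j) (g : Fin 4 × Fin n) :
    v g (kk (SS v kk B i)) ∈ SS v kk B j ∧ star (v g (kk (SS v kk B i))) ∈ SS v kk B j := by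
  have h1 : SS v kk B (i + 1) ⊆ SS v kk B j := SS_mono v kk B h
  refine ⟨h1 ?_, h1 ?_⟩
  · simp only [SS, Finset.mem_union, Finset.mem_image, Finset.mem_univ, true_and]
    exact Or.inl (Or.inr ⟨g, rfl⟩)
  · simp only [SS, Finset.mem_union, Finset.mem_image, Finset.mem_univ, true_and]
    exact Or.inr ⟨g, rfl⟩

theorem mem_Cen {Q : Type} [CStarAlgebra Q] {q : (ℕ →ᵇ A) →⋆ₐ[ℂ] Q} {x : Q} :
    x ∈ Cen q ↔ ∀ a : A, q (cst a) * x = x * q (cst a) := by
  unfold Cen
  rw [StarSubalgebra.mem_centralizer_iff]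
  constructor
  · intro h a
    exact (h _ ⟨a, rfl⟩).1
  · rintro h _ ⟨a, rfl⟩
    refine ⟨h a, ?_⟩
    have h1 := h (star a)
    have h2 : cst (star a) = star (cst a) := by ext k; rfl
    rw [h2, map_star] at h1
    exact h1

theorem q_com {Q : Type} [CStarAlgebra Q] (q : (ℕ →ᵇ A) →⋆ₐ[ℂ] Q) {n : ℕ}
    (v : Fin 4 × Fin n → (ℕ →ᵇ A)) : q (cx v) = cx (fun g => q (v g)) := by
  simp only [cx, map_sum, map_mul, map_sub]

theorem cx_apply {n : ℕ} (v : Fin 4 × Fin n → (ℕ →ᵇ A)) (k : ℕ) :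
    (cx v) k = cx (fun g => v g k) := by
  simp only [cx, BoundedContinuousFunction.coe_sum, Finset.sum_apply,
    BoundedContinuousFunction.coe_mul, Pi.mul_apply, BoundedContinuousFunction.coe_sub,
    Pi.sub_apply]

theorem exists_index {Q : Type} [CStarAlgebra Q] {ω : Ultrafilter ℕ} {q : (ℕ →ᵇ A) →⋆ₐ[ℂ] Q}
    (hq : IsUP A Q ω q) {n : ℕ} {V : Fin 4 × Fin n → Q} (hV : ∀ g, V g ∈ Cen q) (hC : Com V)
    {v : Fin 4 × Fin n → (ℕ →ᵇ A)} (hv : ∀ g, q (v g) = V g) (F : Finset A) {ε : ℝ}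
    (hε : 0 < ε) : ∃ k, Pr v F ε k := by
  have ev : ∀ x : ℕ →ᵇ A, q x = 0 → ∀ᶠ k in (ω : Filter ℕ), ‖x k‖ < ε := fun x hx =>
    ((hq.ker x).mp hx).eventually (gt_mem_nhds hε)
  have h1 : ∀ᶠ k in (ω : Filter ℕ), ∀ a ∈ F, ∀ g,
      ‖v g k * a - a * v g k‖ < ε ∧ ‖star (v g k) * a - a * star (v g k)‖ < ε := by
    rw [Finset.eventually_all]
    intro a _
    rw [eventually_all]
    intro g
    refine (ev (v g * cst a - cst a * v g) ?_).and (ev (star (v g) * cst a - cst a * star (v g)) ?_)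
    · rw [map_sub, map_mul, map_mul, hv, mem_Cen.mp (hV g) a, sub_self]
    · rw [map_sub, map_mul, map_mul, map_star, hv, mem_Cen.mp (star_mem (hV g)) a, sub_self]
  have h2 : ∀ᶠ k in (ω : Filter ℕ), ‖cx (fun g => v g k) - 1‖ < ε := by
    have h3 : q (cx v - 1) = 0 := by
      rw [map_sub, q_com, map_one]
      have : cx V = 1 := hC
      simp only [hv]
      rw [this, sub_self]
    filter_upwards [ev _ h3] with k hk
    rw [← cx_apply]
    exact hk
  obtain ⟨k, hk⟩ := (h1.and h2).exists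
  exact ⟨k, hk⟩

theorem t_F2 : S_F2 := by
  intro A Q _ _ _ ω q hq hω n V hV hC
  classical
  choose v hv using fun g => hq.surj (V g)
  have hex : ∀ (N : ℕ) (F : Finset A), ∃ k, Pr v F (1 / ((N : ℝ) + 1)) k := fun N F =>
    exists_index hq hV hC hv F (by positivity)
  choose kk hkk using hex
  let B : ℕ → Finset A := fun N =>
    (Finset.range (N + 1)).image (TopologicalSpace.denseSeq A)
  let κ : ℕ → ℕ → ℕ := fun N j => kk N (SS v (kk N) (B N) j)
  let S : ℕ → ℕ → Finset A := fun N j => SS v (kk N) (B N) j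
  have hκ : ∀ N j, Pr v (S N j) (1 / ((N : ℝ) + 1)) (κ N j) := fun N j => hkk N _
  have hmem : ∀ N i j g, i < j → v g (κ N i) ∈ S N j ∧ star (v g (κ N i)) ∈ S N j :=
    fun N i j g h => mem_SS v (kk N) (B N) h g
  have hbase : ∀ N j m, m ≤ N → TopologicalSpace.denseSeq A m ∈ S N j := by
    intro N j m hm
    have h1 : B N ⊆ S N j := SS_mono v (kk N) (B N) (Nat.zero_le j)
    refine h1 (Finset.mem_image_of_mem _ ?_)
    rw [Finset.mem_range]; omega
  let T' : ℕ → Fin 4 × Fin n → (ℕ →ᵇ A) := fun j g =>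
    BoundedContinuousFunction.ofNormedAddCommGroup (fun N => v g (κ N j))
      continuous_of_discreteTopology ‖v g‖ (fun N => (v g).norm_coe_le_norm _)
  have hT' : ∀ j g N, T' j g N = v g (κ N j) := fun j g N => rfl
  have hlim : Tendsto (fun N : ℕ => 1 / ((N : ℝ) + 1)) (ω : Filter ℕ) (𝓝 0) :=
    tendsto_one_div_add_atTop_nhds_zero_nat.mono_left hω
  -- elements which are small along atTop are in the kernel
  have hz : ∀ (x : ℕ →ᵇ A) (m : ℕ), (∀ N, m ≤ N → ‖x N‖ < 1 / ((N : ℝ) + 1)) → q x = 0 := by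
    intro x m hx
    rw [hq.ker]
    refine squeeze_zero' (Eventually.of_forall fun _ => norm_nonneg _) ?_ hlim
    have hm : ∀ᶠ N in (ω : Filter ℕ), m ≤ N := hω (eventually_ge_atTop m)
    exact hm.mono fun N hN => (hx N hN).le
  have eq_of : ∀ (x y : ℕ →ᵇ A) (m : ℕ), (∀ N, m ≤ N → ‖x N - y N‖ < 1 / ((N : ℝ) + 1)) →
      q x = q y := by
    intro x y m h
    have := hz (x - y) m h
    rwa [map_sub, sub_eq_zero] at this
  refine ⟨fun j g => q (T' j g), ?_, ⟨∑ g, ‖v g‖, ?_⟩, ?_, ?_⟩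
  · -- commuting
    intro j k hjk i i'
    rcases lt_or_gt_of_ne hjk with h | h
    · refine ⟨?_, ?_⟩
      · rw [← map_mul, ← map_mul]
        refine eq_of _ _ 0 fun N _ => ?_
        have h1 := ((hκ N k).1 (v i (κ N j)) (hmem N j k i h).1 i').1
        rw [norm_sub_rev] at h1
        exact h1
      · rw [← map_star, ← map_mul, ← map_mul]
        refine eq_of _ _ 0 fun N _ => ?_
        have h1 := ((hκ N k).1 (v i (κ N j)) (hmem N j k i h).1 i').2
        rw [norm_sub_rev] at h1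
        exact h1
    · refine ⟨?_, ?_⟩
      · rw [← map_mul, ← map_mul]
        refine eq_of _ _ 0 fun N _ => ?_
        exact ((hκ N j).1 (v i' (κ N k)) (hmem N k j i' h).1 i).1
      · rw [← map_star, ← map_mul, ← map_mul]
        refine eq_of _ _ 0 fun N _ => ?_
        exact ((hκ N j).1 (star (v i' (κ N k))) (hmem N k j i' h).2 i).1
  · intro j g
    have h1 : ‖q (T' j g)‖ ≤ ‖T' j g‖ :=
      NonUnitalStarAlgHom.norm_apply_le (q : (ℕ →ᵇ A) →⋆ₙₐ[ℂ] Q) (T' j g)
    have h2 : ‖T' j g‖ ≤ ‖v g‖ :=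
      (BoundedContinuousFunction.norm_le (norm_nonneg _)).mpr
        fun N => (v g).norm_coe_le_norm _
    exact h1.trans (h2.trans (Finset.single_le_sum (f := fun g => ‖v g‖)
      (fun _ _ => norm_nonneg _) (Finset.mem_univ g)))
  · intro j
    show cx (fun g => q (T' j g)) = 1
    rw [← q_com, ← map_one q]
    refine eq_of _ _ 0 fun N _ => ?_
    rw [cx_apply]
    exact (hκ N j).2
  · intro j g
    rw [mem_Cen]
    have hcl : IsClosed {a : A | q (cst a) * q (T' j g) = q (T' j g) * q (cst a)} := by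
      have hc : Continuous fun a : A => q (cst a) := by
        refine (continuous_hom q).comp ?_
        refine continuous_iff_continuousAt.mpr fun a => ?_
        rw [ContinuousAt, tendsto_iff_norm_sub_tendsto_zero]
        refine squeeze_zero (fun _ => norm_nonneg _) (g := fun b => ‖b - a‖) (fun b => ?_) ?_
        · refine (BoundedContinuousFunction.norm_le (norm_nonneg _)).mpr fun N => ?_
          exact le_rfl
        · exact tendsto_iff_norm_sub_tendsto_zero.mp tendsto_id
      exact isClosed_eq (hc.mul continuous_const) (continuous_const.mul hc)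
    have hd : ∀ m, TopologicalSpace.denseSeq A m ∈
        {a : A | q (cst a) * q (T' j g) = q (T' j g) * q (cst a)} := by
      intro m
      show q _ * q _ = q _ * q _
      rw [← map_mul, ← map_mul]
      refine eq_of _ _ m fun N hN => ?_
      have h1 := ((hκ N j).1 _ (hbase N j m hN) g).1
      rw [norm_sub_rev] at h1
      exact h1
    intro a
    have h3 := (TopologicalSpace.denseRange_denseSeq A) a
    exact (hcl.closure_subset_iff.mpr (Set.range_subset_iff.mpr hd)) h3

end Pool.Agent.N281.DT
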