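import Mathlib
import Pool.Agent.N299.DT.Stm

/-!
Project DT, part SEQ: the algebra of sequences generated by commuting copies.
-/

set_option autoImplicit false

open scoped BoundedContinuousFunction Topology
open Filter

noncomputable section

namespace Pool.Agent.N281.DT

open Pool.Agent.N299 Pool.Agent.N299.DT

/-- evaluation -/
def evL (F : Type) [CStarAlgebra F] (k : ℕ) : (ℕ →ᵇ F) →⋆ₐ[ℂ] F where
  toFun f := f k
  map_one' := rfl
  map_mul' _ _ := rfl
  map_zero' := rfl
  map_add' _ _ := rfl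
  commutes' _ := rfl
  map_star' _ := rfl

theorem t_SEQ (hAL : S_AL) : S_SEQ := by
  intro F _ G T hCS hC N hN
  obtain ⟨C, hC⟩ := hC
  let T'' : ℕ → G → (ℕ →ᵇ F) := fun j g =>
    BoundedContinuousFunction.ofNormedAddCommGroup (fun k => T (N (k, j)) g)
      continuous_of_discreteTopology C (fun k => hC _ _)
  obtain ⟨a1, -, a3, a4, -, -⟩ := hAL (ℕ →ᵇ F) G T''
  let EA : StarSubalgebra ℂ (ℕ →ᵇ F) := Al T'' Set.univ
  have hcl : IsClosed (EA : Set (ℕ →ᵇ F)) := a1 _
  letI inst : CStarAlgebra EA := StarSubalgebra.cstarAlgebra EA (h_closed := hcl)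
  let T' : ℕ → G → EA := fun j g => ⟨T'' j g, a3 _ j g (Set.mem_univ j)⟩
  let ev : ℕ → EA →⋆ₐ[ℂ] F := fun k => (evL F k).comp EA.subtype
  have hev : ∀ k j g, ev k (T' j g) = T (N (k, j)) g := fun k j g => rfl
  obtain ⟨b1, -, b3, -, -, b6⟩ := hAL EA G T'
  have htop : Al T' Set.univ = ⊤ := by
    have hB : IsClosed ((StarSubalgebra.map EA.subtype (Al T' Set.univ) :
        StarSubalgebra ℂ (ℕ →ᵇ F)) : Set (ℕ →ᵇ F)) := by
      have h1 := hcl.isClosedEmbedding_subtypeVal.isClosedMap _ (b1 Set.univ)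
      exact h1
    have h2 := a4 Set.univ _ hB (fun j _ g => ⟨T' j g, b3 _ j g (Set.mem_univ j), rfl⟩)
    rw [eq_top_iff]
    rintro x -
    obtain ⟨y, hy, hxy⟩ := h2 x.2
    have : y = x := Subtype.ext hxy
    rw [← this]
    exact hy
  refine ⟨EA, inst, T', ev, ?_, htop, hev, ?_, ?_⟩
  · intro j j' hj g g'
    have hne : ∀ k, N (k, j) ≠ N (k, j') := fun k h => hj (by
      have := hN h
      simpa using this)
    refine ⟨Subtype.ext (BoundedContinuousFunction.ext fun k => ?_),
      Subtype.ext (BoundedContinuousFunction.ext fun k => ?_)⟩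
    · exact (hCS _ _ (hne k) g g').1
    · exact (hCS _ _ (hne k) g g').2
  · intro x hx
    exact Subtype.ext (BoundedContinuousFunction.ext fun k => hx k)
  · intro k x
    have h1 := (b6 F (ev k) Set.univ).1 x (by rw [htop]; trivial)
    obtain ⟨c1, -, c3, -, -, -⟩ := hAL F G T
    obtain ⟨-, -, -, d4, -, -⟩ := hAL F G (fun j g => ev k (T' j g))
    exact d4 Set.univ _ (c1 (Set.range fun j => N (k, j)))
      (fun j _ g => c3 _ _ g ⟨j, rfl⟩) h1

end Pool.Agent.N281.DT
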